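import Pool.Agent.H42.INS.Gauge

/-!
# Hausdorff positivity sets of gauge functions: a shattered family of continuum many gauges
-/

set_option autoImplicit false

namespace Pool.Agent.Results.MP_173f50_lc.ShatteredGauges

open scoped NNReal ENNReal Cardinal
open Set

/-- gauge functions: nondecreasing, right-continuous, `f 0 = 0`, `f t > 0` for `t > 0` -/
structure IsGauge (f : ℝ≥0 → ℝ≥0) : Prop where
  mono : Monotone f
  rightCont : ∀ t, ContinuousWithinAt f (Ici t) t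
  zero : f 0 = 0
  pos : ∀ t, 0 < t → 0 < f t

/-- the diameter of a bounded set, in `[0, ∞)` -/
noncomputable def dia (U : Set ℝ) : ℝ≥0 := ⟨Metric.diam U, Metric.diam_nonneg⟩

/-- infimum of `∑ f (diam U_i)` over the countable covers of `A` by bounded sets of diameter
`< δ` -/
noncomputable def pre (f : ℝ≥0 → ℝ≥0) (δ : ℝ≥0) (A : Set ℝ) : ℝ≥0∞ :=
  sInf {s | ∃ U : ℕ → Set ℝ, A ⊆ ⋃ i, U i ∧ (∀ i, Bornology.IsBounded (U i) ∧ dia (U i) < δ) ∧
    s = ∑' i, (f (dia (U i)) : ℝ≥0∞)}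

/-- the Hausdorff measure with gauge `f`: the limit of `pre f δ A` for `δ → 0+`, which is its
supremum over `δ > 0` -/
noncomputable def H (f : ℝ≥0 → ℝ≥0) (A : Set ℝ) : ℝ≥0∞ := ⨆ δ ∈ Ioi (0 : ℝ≥0), pre f δ A

/-- the gauge functions of positive measure on `A` -/
def I (A : Set ℝ) : Set (ℝ≥0 → ℝ≥0) := {f | IsGauge f ∧ 0 < H f A}

open Pool.Agent.H42.Gauge in
theorem H_eq {f : ℝ≥0 → ℝ≥0} (h0 : f 0 = 0) (A : Set ℝ) :
    H f A = (MeasureTheory.OuterMeasure.mkMetric
      (fun r : ℝ≥0∞ => ((f r.toNNReal : ℝ≥0) : ℝ≥0∞)) : MeasureTheory.OuterMeasure ℝ) A := by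
  have e := MeasureTheory.Measure.mkMetric_apply (X := ℝ)
    (fun r : ℝ≥0∞ => ((f r.toNNReal : ℝ≥0) : ℝ≥0∞)) A
  rw [← MeasureTheory.OuterMeasure.coe_mkMetric] at e
  rw [e, H]
  have hterm : ∀ U : Set ℝ, Bornology.IsBounded U →
      (⨆ _ : U.Nonempty, ((f (Metric.ediam U).toNNReal : ℝ≥0) : ℝ≥0∞)) =
        (f (dia U) : ℝ≥0∞) := by
    intro U _
    have hd : (Metric.ediam U).toNNReal = dia U := NNReal.eq rfl
    rcases U.eq_empty_or_nonempty with rfl | hne
    · have : dia ∅ = 0 := NNReal.eq Metric.diam_empty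
      rw [this, h0]
      simp
    · rw [hd]
      simp [hne]
  apply le_antisymm
  · refine iSup₂_le fun δ hδ => ?_
    have hδ' : 0 < δ := hδ
    refine le_trans ?_ (le_iSup₂ (f := fun (r : ℝ≥0∞) (_ : 0 < r) =>
      ⨅ (t : ℕ → Set ℝ) (_ : A ⊆ iUnion t) (_ : ∀ n, Metric.ediam (t n) ≤ r),
        ∑' n, ⨆ _ : (t n).Nonempty, ((f (Metric.ediam (t n)).toNNReal : ℝ≥0) : ℝ≥0∞))
      ((δ / 2 : ℝ≥0) : ℝ≥0∞) (by
        rw [ENNReal.coe_pos]
        exact half_pos hδ'))
    refine le_iInf₂ fun t ht => le_iInf fun hd => ?_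
    have hb : ∀ n, Bornology.IsBounded (t n) := fun n =>
      Metric.isBounded_iff_ediam_ne_top.mpr ((hd n).trans_lt ENNReal.coe_lt_top).ne
    apply sInf_le
    refine ⟨t, ht, fun n => ⟨hb n, ?_⟩, ?_⟩
    · have h1 : dia (t n) ≤ δ / 2 := by
        have e1 : (Metric.ediam (t n)).toNNReal = dia (t n) := NNReal.eq rfl
        rw [← e1]
        have := ENNReal.toNNReal_mono ENNReal.coe_ne_top (hd n)
        rwa [ENNReal.toNNReal_coe] at this
      exact h1.trans_lt (half_lt_self hδ')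
    · exact tsum_congr fun n => hterm _ (hb n)
  · refine iSup₂_le fun r hr => ?_
    obtain ⟨δ, hδ0, hδr⟩ : ∃ δ : ℝ≥0, 0 < δ ∧ (δ : ℝ≥0∞) ≤ r := by
      obtain ⟨δ, h1, h2⟩ := ENNReal.lt_iff_exists_nnreal_btwn.mp hr
      exact ⟨δ, ENNReal.coe_pos.mp h1, h2.le⟩
    refine le_trans ?_ (le_iSup₂ (f := fun (δ : ℝ≥0) (_ : δ ∈ Ioi (0 : ℝ≥0)) => pre f δ A) δ hδ0)
    apply le_sInf
    rintro s ⟨U, hU, hd, rfl⟩
    refine (iInf₂_le U hU).trans ((iInf_le _ fun n => ?_).trans ?_)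
    · have h1 := (hd n).2
      have hne := Metric.isBounded_iff_ediam_ne_top.mp (hd n).1
      rw [← ENNReal.coe_toNNReal hne]
      have e1 : (Metric.ediam (U n)).toNNReal = dia (U n) := NNReal.eq rfl
      rw [e1]
      exact (ENNReal.coe_le_coe.mpr h1.le).trans hδr
    · exact le_of_eq (tsum_congr fun n => hterm _ (hd n).1)

open Pool.Agent.H42.Gauge in
theorem key (S : Set (ℕ → Bool)) (a : ℕ → Bool) :
    gf (XX a) ∈ I (⋃ b ∈ S, PP (XX b)) ↔ a ∈ S := by
  have hz : gf (XX a) 0 = 0 := gf_zero _ (XX_infinite a)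
  constructor
  · rintro ⟨-, h⟩
    by_contra ha
    rw [H_eq hz] at h
    have h2 : (⋃ b ∈ S, PP (XX b)) ⊆ GG (XX a) := by
      apply Set.iUnion₂_subset
      intro b hb
      apply PP_subset_GG
      rintro rfl
      exact ha hb
    have h3 := (MeasureTheory.measure_mono h2).trans (mkMetric_GG (XX a) (XX_infinite a)).le
    exact absurd h (not_lt.2 h3)
  · intro ha
    refine ⟨⟨gf_mono _, gf_cont _, hz, gf_pos _⟩, ?_⟩
    rw [H_eq hz]
    have h1 := mkMetric_PP_pos (XX a)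
    have h2 : PP (XX a) ⊆ ⋃ b ∈ S, PP (XX b) :=
      Set.subset_biUnion_of_mem (u := fun b => PP (XX b)) ha
    exact lt_of_lt_of_le one_pos (h1.trans (MeasureTheory.measure_mono h2))

/-- There is a set `Γ` of continuum many gauge functions such that every subset of `Γ` is the trace
on `Γ` of the positivity set `I A` of some set `A` of reals; in particular the range of `I` has
cardinality `2 ^ 𝔠`. -/
theorem result : #(range I) = 2 ^ 𝔠 ∧
    ∃ Γ : Set (ℝ≥0 → ℝ≥0), (∀ f ∈ Γ, IsGauge f) ∧ #Γ = 𝔠 ∧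
      ∀ Δ ⊆ Γ, ∃ A : Set ℝ, I A ∩ Γ = Δ := by
  constructor
  · apply le_antisymm
    · refine Cardinal.mk_range_le.trans (le_of_eq ?_)
      rw [Cardinal.mk_set, Cardinal.mk_real]
    · have inj : Function.Injective (fun S : Set (ℕ → Bool) =>
          (⟨I (⋃ b ∈ S, Pool.Agent.H42.Gauge.PP (Pool.Agent.H42.Gauge.XX b)),
            Set.mem_range_self _⟩ : Set.range I)) := by
        intro S T h
        have h1 := congrArg Subtype.val h
        ext a
        rw [← key S a, ← key T a]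
        simp only at h1
        rw [h1]
      have h1 := Cardinal.mk_le_of_injective inj
      refine le_trans (le_of_eq ?_) h1
      rw [Cardinal.mk_set]
      simp
  · refine ⟨range fun a : ℕ → Bool => Pool.Agent.H42.Gauge.gf (Pool.Agent.H42.Gauge.XX a), ?_, ?_, ?_⟩
    · rintro _ ⟨a, rfl⟩
      exact ((key {a} a).mpr rfl).1
    · rw [Cardinal.mk_range_eq]
      · simp
      · intro a b hab
        have h1 := (key {a} a).mpr rfl
        simp only at hab
        rw [hab] at h1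
        have h2 := (key {a} b).mp h1
        exact h2.symm
    · intro Δ hΔ
      refine ⟨⋃ b ∈ {a | Pool.Agent.H42.Gauge.gf (Pool.Agent.H42.Gauge.XX a) ∈ Δ},
        Pool.Agent.H42.Gauge.PP (Pool.Agent.H42.Gauge.XX b), ?_⟩
      ext f
      constructor
      · rintro ⟨h1, a, rfl⟩
        exact (key _ a).mp h1
      · intro hf
        obtain ⟨a, rfl⟩ := hΔ hf
        exact ⟨(key _ a).mpr hf, a, rfl⟩

end Pool.Agent.Results.MP_173f50_lc.ShatteredGauges
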